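import Pool.Agent.H38.PWS.Stmts

/-!
# Row `ONE` of the square root bound (MP_83fa19)

The primes on level `j` which come only from the set `T` of primes exactly dividing `n` are small.
-/

set_option autoImplicit false

namespace Pool.PWS

open ArithmeticFunction Finset Pool.MKP

theorem ONE : ONEStmt := by
  classical
  intro m n L hn hL T hT hT1 j
  induction j with
  | zero =>
    intro _ S hS hp
    rw [pow_zero, one_mul]
    have hsub : S ⊆ T := fun z hz => hp z hz z (Pp.refl (hS hz))
    have h1 : ∏ z ∈ S, z ^ (it 0 n).factorization z = ∏ z ∈ S, z := by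
      refine prod_congr rfl fun z hz => ?_
      rw [it_zero, hT1 z (hsub hz), pow_one]
    rw [h1]
    refine prod_le_prod_of_subset_of_one_le' hsub fun p hp' _ => ?_
    exact (Nat.prime_of_mem_primeFactors (hT hp')).one_lt.le
  | succ j ih =>
    intro hj S hS hp
    have hM : it j n ≠ 0 := (it_pos hn j).ne'
    have hM1 : it (j + 1) n ≠ 0 := (it_pos hn (j + 1)).ne'
    set F : ℕ → ℕ := fun w => w ^ (it j n).factorization w with hF
    set S' : Finset ℕ := (it j n).primeFactors.filter fun w => ∃ z ∈ S, z ∣ sigma 1 (F w) with hS'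
    have hS'sub : S' ⊆ (it j n).primeFactors := filter_subset _ _
    have hind : ∏ w ∈ S', F w ≤ L ^ j * ∏ p ∈ T, p := by
      refine ih (by omega) S' hS'sub ?_
      intro w hw r hr
      obtain ⟨hw1, z, hz, hzw⟩ := mem_filter.1 hw
      refine hp z hz r (Pp.snoc hr ⟨hw1, Nat.prime_of_mem_primeFactors (hS hz), hzw⟩)
    -- `D'` divides the iterate
    have hD : ∏ w ∈ S', F w ∣ it j n := by
      have h1 : ∏ w ∈ (it j n).primeFactors, F w = it j n :=
        Nat.prod_factorization_pow_eq_self hM
      calc ∏ w ∈ S', F w ∣ ∏ w ∈ (it j n).primeFactors, F w := prod_dvd_prod_of_subset _ _ _ hS'sub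
        _ = it j n := h1
    have hσ : sigma 1 (∏ w ∈ S', F w) = ∏ w ∈ S', sigma 1 (F w) := by
      refine isMultiplicative_sigma.map_prod _ _ ?_
      intro a ha b hb hab
      refine Nat.Coprime.pow _ _ ?_
      exact (Nat.coprime_primes (Nat.prime_of_mem_primeFactors (hS'sub ha))
        (Nat.prime_of_mem_primeFactors (hS'sub hb))).2 hab
    have hsplit : it (j + 1) n =
        (∏ w ∈ S', sigma 1 (F w)) * ∏ w ∈ (it j n).primeFactors \ S', sigma 1 (F w) := by
      rw [it_succ, sigma_prod hM, mul_comm]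
      exact (prod_sdiff hS'sub).symm
    have hdvd : ∏ z ∈ S, z ^ (it (j + 1) n).factorization z ∣ sigma 1 (∏ w ∈ S', F w) := by
      refine Finset.prod_dvd_of_isRelPrime ?_ ?_
      · intro a ha b hb hab
        refine Nat.coprime_iff_isRelPrime.1 (Nat.Coprime.pow _ _ ?_)
        exact (Nat.coprime_primes (Nat.prime_of_mem_primeFactors (hS ha))
          (Nat.prime_of_mem_primeFactors (hS hb))).2 hab
      · intro z hz
        have hzp : z.Prime := Nat.prime_of_mem_primeFactors (hS hz)
        have h1 : z ^ (it (j + 1) n).factorization z ∣ it (j + 1) n := Nat.ordProj_dvd _ _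
        rw [hσ]
        have h2 : Nat.Coprime z (∏ w ∈ (it j n).primeFactors \ S', sigma 1 (F w)) := by
          refine (Nat.Prime.coprime_iff_not_dvd hzp).2 fun h => ?_
          obtain ⟨w, hw, hzw⟩ := (Prime.dvd_finsetProd_iff hzp.prime _).1 h
          obtain ⟨hw1, hw2⟩ := mem_sdiff.1 hw
          exact hw2 (mem_filter.2 ⟨hw1, z, hz, hzw⟩)
        have h3 : z ^ (it (j + 1) n).factorization z ∣
            (∏ w ∈ S', sigma 1 (F w)) * ∏ w ∈ (it j n).primeFactors \ S', sigma 1 (F w) :=
          hsplit ▸ h1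
        exact (Nat.Coprime.pow_left _ h2).dvd_of_dvd_mul_right h3
    have hDpos : 0 < ∏ w ∈ S', F w := Nat.pos_of_dvd_of_pos hD (it_pos hn j)
    calc ∏ z ∈ S, z ^ (it (j + 1) n).factorization z
        ≤ sigma 1 (∏ w ∈ S', F w) := Nat.le_of_dvd (sigma_pos' hDpos) hdvd
      _ ≤ L * ∏ w ∈ S', F w := hL j (by omega) _ hD
      _ ≤ L * (L ^ j * ∏ p ∈ T, p) := Nat.mul_le_mul_left _ hind
      _ = L ^ (j + 1) * ∏ p ∈ T, p := by ring

end Pool.PWS
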